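import Mathlib

/-!
Jeu de taquin and tableau stabilization.

A skew tableau is a filling of all cells `(row, column)` of `ℕ × ℕ` (numbered from 0, English
convention: rows from the top, columns from the left) by elements of `ℕ∞`: the cells of the inner
shape hold `0`, the cells of the skew shape hold their entries `1, 2, …`, and the cells outside
the outer shape hold `⊤`.
-/

namespace Pool.Agent.P.MP_e8bda8_co

/-- `Slide T c U`: with the empty box at cell `c` of `T`, repeatedly move the smaller of the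
entries to the right of and below the empty box into it; when there is neither, the empty box
leaves the shape, and the result is `U`. -/
inductive Slide : (ℕ × ℕ → ℕ∞) → ℕ × ℕ → (ℕ × ℕ → ℕ∞) → Prop
  | stop (T : ℕ × ℕ → ℕ∞) (i j : ℕ) : T (i, j + 1) = ⊤ → T (i + 1, j) = ⊤ →
      Slide T (i, j) (Function.update T (i, j) ⊤)
  | left (T U : ℕ × ℕ → ℕ∞) (i j : ℕ) : T (i, j + 1) < T (i + 1, j) →
      Slide (Function.update T (i, j) (T (i, j + 1))) (i, j + 1) U → Slide T (i, j) U
  | up (T U : ℕ × ℕ → ℕ∞) (i j : ℕ) : T (i + 1, j) < T (i, j + 1) →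
      Slide (Function.update T (i, j) (T (i + 1, j))) (i + 1, j) U → Slide T (i, j) U

/-- `U` is obtained from `T` by one inner slide, into a corner `(i, j)` of the inner shape. -/
def InnerSlide (T U : ℕ × ℕ → ℕ∞) : Prop :=
  ∃ i j : ℕ, T (i, j) = 0 ∧ T (i, j + 1) ≠ 0 ∧ T (i + 1, j) ≠ 0 ∧ Slide T (i, j) U

/-- `U` is the rectification of `T`: it is reached from `T` by inner slides and has straight
shape (empty inner shape). -/
def IsRect (T U : ℕ × ℕ → ℕ∞) : Prop :=
  Relation.ReflTransGen InnerSlide T U ∧ ∀ c : ℕ × ℕ, U c ≠ 0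

/-- The tableau `T_w^{(k)}`. Row `c.1 < n` belongs to the index `j = n - 1 - c.1` (from 0); it
occupies columns `j, …, j + k - 1` and holds `w_j, w_j + n, …` (values of `w` counted from 1). -/
def tab {n : ℕ} (w : Equiv.Perm (Fin n)) (k : ℕ) (c : ℕ × ℕ) : ℕ∞ :=
  if h : c.1 < n then
    if c.2 < n - 1 - c.1 then 0
    else if c.2 < n - 1 - c.1 + k then
      ((w ⟨n - 1 - c.1, by omega⟩ : ℕ) + 1 + (c.2 - (n - 1 - c.1)) * n : ℕ)
    else ⊤
  else ⊤

/-- `w` stabilizes at `k`: each entry of `{(k-1)n+1, …, kn}` lies in the same row of the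
rectification of `T_w^{(k)}` as in `T_w^{(k)}`. -/
def Stabilizes {n : ℕ} (w : Equiv.Perm (Fin n)) (k : ℕ) : Prop :=
  ∃ U : ℕ × ℕ → ℕ∞, IsRect (tab w k) U ∧
    ∀ x : ℕ, (k - 1) * n + 1 ≤ x → x ≤ k * n →
      ∃ i j j' : ℕ, tab w k (i, j) = (x : ℕ∞) ∧ U (i, j') = (x : ℕ∞)

/-- `stab w`: the least `k ≥ 1` at which `w` stabilizes. -/
noncomputable def stab {n : ℕ} (w : Equiv.Perm (Fin n)) : ℕ :=
  sInf {k : ℕ | 1 ≤ k ∧ Stabilizes w k}

end Pool.Agent.P.MP_e8bda8_co
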