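import Mathlib

/-!
Greene invariants of a row word, in the form of ordered families of monotone paths.
`ρ t` is the row (numbered from 0, top to bottom) of the entry `t`.
-/

namespace Pool.Agent.P.MP_e8bda8_co

open Finset

/-- a strictly increasing choice of `r` rows below `n` -/
def Conf (n r : ℕ) (Q : ℕ → ℕ) : Prop :=
  (∀ a, a < r → Q a < n) ∧ ∀ a b, a < b → b < r → Q a < Q b

/-- a family of `r` ordered paths moving up -/
def Fam (n r : ℕ) (P : ℕ → ℕ → ℕ) : Prop :=
  (∀ t, Conf n r (P t)) ∧ ∀ t a, a < r → P (t + 1) a ≤ P t a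

open Classical in
/-- number of entries up to `m` collected by the family -/
noncomputable def score (r : ℕ) (ρ : ℕ → ℕ) (P : ℕ → ℕ → ℕ) (m : ℕ) : ℕ :=
  ((Ioc 0 m).filter fun t => ∃ a, a < r ∧ P t a = ρ t).card

/-- `s` entries up to `m` can be collected by `r` paths -/
def Ach (n r : ℕ) (ρ : ℕ → ℕ) (m s : ℕ) : Prop :=
  ∃ P, Fam n r P ∧ s ≤ score r ρ P m

/-- number of entries in `(a, b]` lying in row `l` -/
def cnt (ρ : ℕ → ℕ) (l a b : ℕ) : ℕ := ((Ioc a b).filter fun t => ρ t = l).card

theorem Fam.anti {n r : ℕ} {P : ℕ → ℕ → ℕ} (h : Fam n r P) {a : ℕ} (ha : a < r) {t u : ℕ}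
    (htu : t ≤ u) : P u a ≤ P t a := by
  induction u, htu using Nat.le_induction with
  | base => exact le_rfl
  | succ u _ ih => exact (h.2 u a ha).trans ih

theorem Conf.inj {n r : ℕ} {Q : ℕ → ℕ} (h : Conf n r Q) {a b : ℕ} (ha : a < r) (hb : b < r)
    (e : Q a = Q b) : a = b := by
  rcases lt_trichotomy a b with h1 | h1 | h1
  · have := h.2 a b h1 hb; omega
  · exact h1
  · have := h.2 b a h1 ha; omega

theorem Conf.le {n r : ℕ} {Q : ℕ → ℕ} (h : Conf n r Q) {a : ℕ} (ha : a < r) : a ≤ Q a := by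
  induction a with
  | zero => exact Nat.zero_le _
  | succ a ih =>
    have h1 := ih (by omega)
    have h2 := h.2 a (a + 1) (by omega) ha
    omega

theorem Conf.le' {n r : ℕ} {Q : ℕ → ℕ} (h : Conf n r Q) {a : ℕ} (ha : a < r) :
    Q a + r ≤ n + a := by
  have : ∀ d a, a + d + 1 = r → Q a + r ≤ n + a := by
    intro d
    induction d with
    | zero => intro a e; have := h.1 a (by omega); omega
    | succ d ih =>
      intro a e
      have h1 := ih (a + 1) (by omega)
      have h2 := h.2 a (a + 1) (by omega) (by omega)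
      omega
  exact this (r - a - 1) a (by omega)

open Classical in
theorem score_succ (r : ℕ) (ρ : ℕ → ℕ) (P : ℕ → ℕ → ℕ) (m : ℕ) :
    score r ρ P (m + 1) = score r ρ P m + if ∃ a, a < r ∧ P (m + 1) a = ρ (m + 1) then 1 else 0 := by
  unfold score
  rw [← Finset.insert_Ioc_right_eq_Ioc_add_one (Nat.zero_le m), filter_insert]
  split_ifs with h
  · rw [card_insert_of_notMem (by simp)]
  · rfl

theorem cnt_succ (ρ : ℕ → ℕ) (l : ℕ) {a m : ℕ} (h : a ≤ m) :
    cnt ρ l a (m + 1) = cnt ρ l a m + if ρ (m + 1) = l then 1 else 0 := by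
  unfold cnt
  rw [← Finset.insert_Ioc_right_eq_Ioc_add_one h, filter_insert]
  split_ifs with h
  · rw [card_insert_of_notMem (by simp)]
  · rfl

theorem cnt_self (ρ : ℕ → ℕ) (l a : ℕ) : cnt ρ l a a = 0 := by simp [cnt]

theorem score_zero (r : ℕ) (ρ : ℕ → ℕ) (P : ℕ → ℕ → ℕ) : score r ρ P 0 = 0 := by simp [score]

open Classical in
theorem sum_ind {n r : ℕ} {Q : ℕ → ℕ} (h : Conf n r Q) (v : ℕ) :
    (∑ a ∈ range r, if v = Q a then 1 else 0) = if ∃ a, a < r ∧ Q a = v then 1 else 0 := by
  split_ifs with h1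
  · obtain ⟨a, ha, e⟩ := h1
    rw [Finset.sum_eq_single a]
    · simp [e]
    · intro b hb hba
      rw [if_neg]
      intro e2
      exact hba (h.inj (mem_range.1 hb) ha (by rw [← e2, e]))
    · intro h2; exact absurd (mem_range.2 ha) h2
  · refine Finset.sum_eq_zero fun b hb => ?_
    rw [if_neg]
    intro e2
    exact h1 ⟨b, mem_range.1 hb, e2.symm⟩

open Classical in
theorem sum_cnt_succ {n r : ℕ} {Q : ℕ → ℕ} (h : Conf n r Q) (ρ : ℕ → ℕ) (m : ℕ) :
    ∑ a ∈ range r, cnt ρ (Q a) 0 (m + 1)
      = ∑ a ∈ range r, cnt ρ (Q a) 0 m + if ∃ a, a < r ∧ Q a = ρ (m + 1) then 1 else 0 := by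
  rw [← sum_ind h, ← sum_add_distrib]
  exact sum_congr rfl fun a _ => cnt_succ ρ _ (Nat.zero_le m)

/-- potential upper bound -/
theorem score_le {n r : ℕ} {ρ : ℕ → ℕ} {P : ℕ → ℕ → ℕ} (hP : Fam n r P) (E : ℕ → ℕ) (m : ℕ)
    (hE : ∀ τ, τ ≤ m → ∀ l l', l ≤ l' → l' < n → cnt ρ l' 0 τ + E l ≤ cnt ρ l 0 τ + E l') :
    score r ρ P m + ∑ a ∈ range r, E (P m a)
      ≤ ∑ a ∈ range r, cnt ρ (P m a) 0 m + ∑ a ∈ range r, E (P 0 a) := by
  induction m with
  | zero => simp [score_zero]
  | succ m ih =>
    have h1 := ih fun τ hτ => hE τ (by omega)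
    rw [score_succ, sum_cnt_succ (hP.1 (m + 1))]
    have h2 : ∑ a ∈ range r, cnt ρ (P m a) 0 m + ∑ a ∈ range r, E (P (m + 1) a)
        ≤ ∑ a ∈ range r, cnt ρ (P (m + 1) a) 0 m + ∑ a ∈ range r, E (P m a) := by
      rw [← sum_add_distrib, ← sum_add_distrib]
      refine sum_le_sum fun a ha => ?_
      exact hE m (by omega) _ _ (hP.2 m a (mem_range.1 ha)) ((hP.1 m).1 a (mem_range.1 ha))
    omega

theorem sum_cnt_eq (ρ : ℕ → ℕ) (r m : ℕ) :
    ∑ a ∈ range r, cnt ρ a 0 m = ((Ioc 0 m).filter fun t => ρ t < r).card := by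
  induction r with
  | zero => simp
  | succ r ih =>
    rw [sum_range_succ, ih, cnt, ← card_union_of_disjoint]
    · congr 1
      ext t
      simp only [mem_union, mem_filter]
      constructor
      · rintro (h | h) <;> exact ⟨h.1, by omega⟩
      · rintro ⟨h1, h2⟩
        rcases Nat.lt_succ_iff_lt_or_eq.1 h2 with h | h
        · exact Or.inl ⟨h1, h⟩
        · exact Or.inr ⟨h1, h⟩
    · rw [disjoint_filter]
      intro t _ h1 h2
      omega

/-- for a lattice word the invariant is the number of entries in the first `r` rows -/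
theorem ach_lattice {n r : ℕ} (hr : r ≤ n) {ρ : ℕ → ℕ} {m : ℕ}
    (hY : ∀ τ, τ ≤ m → ∀ l l', l ≤ l' → cnt ρ l' 0 τ ≤ cnt ρ l 0 τ) (s : ℕ) :
    Ach n r ρ m s ↔ s ≤ ((Ioc 0 m).filter fun t => ρ t < r).card := by
  constructor
  · rintro ⟨P, hP, hs⟩
    have h1 := score_le hP (fun _ => 0) m (fun τ hτ l l' h _ => by simpa using hY τ hτ l l' h)
    simp only [sum_const_zero, add_zero] at h1
    rw [← sum_cnt_eq]
    refine hs.trans (h1.trans (sum_le_sum fun a ha => ?_))
    exact hY m le_rfl _ _ ((hP.1 m).le (mem_range.1 ha))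
  · intro hs
    refine ⟨fun _ a => a, ⟨fun _ => ⟨fun a ha => lt_of_lt_of_le ha hr, fun a b h _ => h⟩, fun _ _ _ => le_rfl⟩, ?_⟩
    refine hs.trans (le_of_eq ?_)
    unfold score
    congr 1
    ext t
    simp

/-- moving the entry `x` up from row `i+1` to row `i` does not lower the invariant -/
theorem ach_up {n r : ℕ} {ρ ρ' : ℕ → ℕ} {x i m s : ℕ}
    (hx : ρ x = i + 1) (hx' : ρ' x = i) (hne : ∀ t, t ≠ x → ρ' t = ρ t)
    (hc : ∀ τ, x ≤ τ → τ ≤ m → cnt ρ (i + 1) x τ ≤ cnt ρ i x τ) (h : Ach n r ρ m s) :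
    Ach n r ρ' m s := by
  classical
  obtain ⟨P, hP, hs⟩ := h
  by_cases hA : (∃ p, p < r ∧ P x p = i + 1) ∧ ¬ ∃ p, p < r ∧ P x p = i
  swap
  · refine ⟨P, hP, hs.trans (card_le_card fun t ht => ?_)⟩
    simp only [mem_filter] at ht ⊢
    refine ⟨ht.1, ?_⟩
    by_cases e : t = x
    · subst e
      rw [hx']
      rw [hx] at ht
      by_contra h2
      exact hA ⟨ht.2, h2⟩
    · rw [hne t e]; exact ht.2
  obtain ⟨⟨p, hp, hpx⟩, hB⟩ := hA
  have habove : ∀ t a, x ≤ t → a < p → P t a < i := by
    intro t a ht ha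
    have h1 := hP.anti (ha.trans hp) ht
    have h2 := (hP.1 x).2 a p ha hp
    have h3 : P x a ≠ i := fun e => hB ⟨a, ha.trans hp, e⟩
    omega
  let P' : ℕ → ℕ → ℕ := fun t a => if x ≤ t ∧ a = p ∧ P t p = i + 1 then i else P t a
  have hP' : Fam n r P' := by
    refine ⟨fun t => ⟨fun a ha => ?_, fun a b hab hb => ?_⟩, fun t a ha => ?_⟩
    · have := (hP.1 t).1 a ha
      simp only [P']
      split_ifs with h1
      · obtain ⟨_, rfl, h2⟩ := h1; omega
      · exact this
    · have := (hP.1 t).2 a b hab hb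
      simp only [P']
      split_ifs with h1 h2 h2
      · omega
      · obtain ⟨_, rfl, h3⟩ := h1; omega
      · obtain ⟨h4, rfl, h3⟩ := h2; exact habove t a h4 hab
      · exact this
    · have := hP.2 t a ha
      simp only [P']
      split_ifs with h1 h2 h2
      · exact le_rfl
      · obtain ⟨_, rfl, h3⟩ := h1; omega
      · obtain ⟨h4, rfl, h3⟩ := h2
        have : P (t + 1) a ≠ i + 1 := fun e => h1 ⟨by omega, rfl, e⟩
        omega
      · exact this
  refine ⟨P', hP', hs.trans ?_⟩
  -- invariant along time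
  have key : ∀ u, u ≤ m →
      (u < x → score r ρ P u ≤ score r ρ' P' u) ∧
      (x ≤ u → P u p = i + 1 →
        score r ρ P u + cnt ρ i x u ≤ score r ρ' P' u + cnt ρ (i + 1) x u) ∧
      (x ≤ u → P u p ≠ i + 1 → score r ρ P u ≤ score r ρ' P' u) := by
    intro u
    induction u with
    | zero =>
      intro _
      refine ⟨fun _ => by simp [score_zero], fun h1 _ => ?_, fun _ _ => by simp [score_zero]⟩
      have : x = 0 := by omega
      subst this
      simp [score_zero, cnt_self]
    | succ u ih =>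
      intro hu
      obtain ⟨i1, i2, i3⟩ := ih (by omega)
      have same : ¬ (x ≤ u + 1 ∧ P (u + 1) p = i + 1) → u + 1 ≠ x →
          ((∃ a, a < r ∧ P (u + 1) a = ρ (u + 1)) ↔ ∃ a, a < r ∧ P' (u + 1) a = ρ' (u + 1)) := by
        intro h1 h2
        have : ∀ a, P' (u + 1) a = P (u + 1) a := fun a => if_neg fun h => h1 ⟨h.1, h.2.2⟩
        simp only [this, hne _ h2]
      refine ⟨fun h1 => ?_, fun h1 h2 => ?_, fun h1 h2 => ?_⟩
      · rw [score_succ, score_succ]
        have := i1 (by omega)
        simp only [same (by omega) (by omega)]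
        omega
      · rw [score_succ, score_succ]
        by_cases e : u + 1 = x
        · have := i1 (by omega)
          have e1 : ∃ a, a < r ∧ P' (u + 1) a = ρ' (u + 1) :=
            ⟨p, hp, (if_pos ⟨h1, rfl, h2⟩).trans (by rw [e, hx'])⟩
          rw [if_pos e1, e, cnt_self, cnt_self]
          split_ifs <;> omega
        · have hxu : x ≤ u := by omega
          have h3 : P u p = i + 1 := by
            have h4 := hP.2 u p hp
            have h5 := hP.anti hp hxu
            omega
          have := i2 hxu h3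
          rw [cnt_succ _ _ hxu, cnt_succ _ _ hxu]
          have hp' : P' (u + 1) p = i := if_pos ⟨h1, rfl, h2⟩
          have ho : ∀ a, a ≠ p → P' (u + 1) a = P (u + 1) a := fun a ha =>
            if_neg fun h => ha h.2.1
          by_cases c1 : ρ (u + 1) = i
          · have e1 : ∃ a, a < r ∧ P' (u + 1) a = ρ' (u + 1) :=
              ⟨p, hp, by rw [hp', hne _ e, c1]⟩
            have e2 : ¬ ∃ a, a < r ∧ P (u + 1) a = ρ (u + 1) := by
              rintro ⟨a, ha, e2⟩
              rcases lt_trichotomy a p with h4 | h4 | h4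
              · have := habove (u + 1) a h1 h4; omega
              · subst h4; omega
              · have := (hP.1 (u + 1)).2 p a h4 ha; omega
            rw [if_pos e1, if_neg e2, if_pos c1, if_neg (by omega)]
            omega
          · by_cases c2 : ρ (u + 1) = i + 1
            · rw [if_neg c1, if_pos c2]
              split_ifs <;> omega
            · rw [if_neg c1, if_neg c2]
              by_cases c3 : ∃ a, a < r ∧ P (u + 1) a = ρ (u + 1)
              · have e1 : ∃ a, a < r ∧ P' (u + 1) a = ρ' (u + 1) := by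
                  obtain ⟨a, ha, e2⟩ := c3
                  refine ⟨a, ha, ?_⟩
                  rw [ho a (by rintro rfl; omega), hne _ e, e2]
                rw [if_pos c3, if_pos e1]; omega
              · rw [if_neg c3]; omega
      · have e : u + 1 ≠ x := by rintro rfl; exact h2 hpx
        have hxu : x ≤ u := by omega
        rw [score_succ, score_succ]
        simp only [same (fun h => h2 h.2) e]
        by_cases h3 : P u p = i + 1
        · have := i2 hxu h3
          have := hc u hxu (by omega)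
          omega
        · have := i3 hxu h3
          omega
  obtain ⟨k1, k2, k3⟩ := key m le_rfl
  by_cases h1 : m < x
  · exact k1 h1
  · by_cases h2 : P m p = i + 1
    · have := k2 (by omega) h2
      have := hc m (by omega) le_rfl
      omega
    · exact k3 (by omega) h2

/-- moving the entry `x` down from row `i` to row `i+1` does not lower the invariant -/
theorem ach_down {n r : ℕ} {ρ ρ' : ℕ → ℕ} {x i m s : ℕ} (hi : i + 1 < n) (hx0 : 0 < x)
    (hx : ρ x = i) (hx' : ρ' x = i + 1) (hne : ∀ t, t ≠ x → ρ' t = ρ t)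
    (hc : ∀ τ, τ < x → cnt ρ i τ (x - 1) ≤ cnt ρ (i + 1) τ (x - 1)) (h : Ach n r ρ m s) :
    Ach n r ρ' m s := by
  classical
  obtain ⟨P, hP, hs⟩ := h
  by_cases hA : x ≤ m ∧ (∃ p, p < r ∧ P x p = i) ∧ ¬ ∃ p, p < r ∧ P x p = i + 1
  swap
  · refine ⟨P, hP, hs.trans (card_le_card fun t ht => ?_)⟩
    simp only [mem_filter, mem_Ioc] at ht ⊢
    refine ⟨ht.1, ?_⟩
    by_cases e : t = x
    · subst e
      rw [hx']
      rw [hx] at ht
      by_contra h2
      exact hA ⟨ht.1.2, ht.2, h2⟩
    · rw [hne t e]; exact ht.2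
  obtain ⟨hxm, ⟨p, hp, hpx⟩, hB⟩ := hA
  have hbelow : ∀ t a, t ≤ x → p < a → a < r → i + 1 < P t a := by
    intro t a ht ha har
    have h1 := hP.anti har ht
    have h2 := (hP.1 x).2 p a ha har
    have h3 : P x a ≠ i + 1 := fun e => hB ⟨a, har, e⟩
    omega
  let P' : ℕ → ℕ → ℕ := fun t a => if t ≤ x ∧ a = p ∧ P t p = i then i + 1 else P t a
  have hP' : Fam n r P' := by
    refine ⟨fun t => ⟨fun a ha => ?_, fun a b hab hb => ?_⟩, fun t a ha => ?_⟩
    · have := (hP.1 t).1 a ha
      simp only [P']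
      split_ifs with h1
      · exact hi
      · exact this
    · have := (hP.1 t).2 a b hab hb
      simp only [P']
      split_ifs with h1 h2 h2
      · omega
      · obtain ⟨h4, rfl, h3⟩ := h1; exact hbelow t b h4 hab hb
      · obtain ⟨h4, rfl, h3⟩ := h2; omega
      · exact this
    · have := hP.2 t a ha
      simp only [P']
      split_ifs with h1 h2 h2
      · exact le_rfl
      · obtain ⟨h4, rfl, h3⟩ := h1
        have : P t a ≠ i := fun e => h2 ⟨by omega, rfl, e⟩
        omega
      · obtain ⟨h4, rfl, h3⟩ := h2; omega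
      · exact this
  refine ⟨P', hP', hs.trans ?_⟩
  have hex : ∃ u, P u p = i := ⟨x, hpx⟩
  set u0 := Nat.find hex with hu0
  have hu0x : u0 ≤ x := Nat.find_min' hex hpx
  have hu0i : P u0 p = i := Nat.find_spec hex
  have hlt : ∀ u, u < u0 → P u p ≠ i := fun u hu => Nat.find_min hex hu
  have hin : ∀ u, u0 ≤ u → u ≤ x → P u p = i := by
    intro u h1 h2
    have h3 := hP.anti hp h1
    have h4 := hP.anti hp h2
    omega
  have same : ∀ u, ¬ (u ≤ x ∧ P u p = i) → u ≠ x →
      ((∃ a, a < r ∧ P u a = ρ u) ↔ ∃ a, a < r ∧ P' u a = ρ' u) := by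
    intro u h1 h2
    have : ∀ a, P' u a = P u a := fun a => if_neg fun h => h1 ⟨h.1, h.2.2⟩
    simp only [this, hne _ h2]
  have k1 : ∀ u, u ≤ u0 - 1 → score r ρ P u ≤ score r ρ' P' u := by
    intro u
    induction u with
    | zero => intro _; simp [score_zero]
    | succ u ih =>
      intro hu
      have := ih (by omega)
      rw [score_succ, score_succ]
      simp only [same (u + 1) (fun h => hlt (u + 1) (by omega) h.2) (by omega)]
      omega
  have k2 : ∀ u, u0 - 1 ≤ u → u < x →
      score r ρ P u + cnt ρ (i + 1) (u0 - 1) u ≤ score r ρ' P' u + cnt ρ i (u0 - 1) u := by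
    intro u hu
    induction u, hu using Nat.le_induction with
    | base => intro _; rw [cnt_self, cnt_self]; have := k1 _ le_rfl; omega
    | succ u hu ih =>
      intro hux
      have := ih (by omega)
      have h2 : P (u + 1) p = i := hin _ (by omega) (by omega)
      have e : u + 1 ≠ x := by omega
      rw [score_succ, score_succ, cnt_succ _ _ hu, cnt_succ _ _ hu]
      have hp' : P' (u + 1) p = i + 1 := if_pos ⟨by omega, rfl, h2⟩
      have ho : ∀ a, a ≠ p → P' (u + 1) a = P (u + 1) a := fun a ha =>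
        if_neg fun h => ha h.2.1
      by_cases c1 : ρ (u + 1) = i + 1
      · have e1 : ∃ a, a < r ∧ P' (u + 1) a = ρ' (u + 1) :=
          ⟨p, hp, by rw [hp', hne _ e, c1]⟩
        have e2 : ¬ ∃ a, a < r ∧ P (u + 1) a = ρ (u + 1) := by
          rintro ⟨a, ha, e2⟩
          rcases lt_trichotomy a p with h4 | h4 | h4
          · have := (hP.1 (u + 1)).2 a p h4 hp; omega
          · subst h4; omega
          · have := hbelow (u + 1) a (by omega) h4 ha; omega
        rw [if_pos e1, if_neg e2, if_pos c1, if_neg (by omega)]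
        omega
      · by_cases c2 : ρ (u + 1) = i
        · rw [if_neg c1, if_pos c2]
          split_ifs <;> omega
        · rw [if_neg c1, if_neg c2]
          by_cases c3 : ∃ a, a < r ∧ P (u + 1) a = ρ (u + 1)
          · have e1 : ∃ a, a < r ∧ P' (u + 1) a = ρ' (u + 1) := by
              obtain ⟨a, ha, e2⟩ := c3
              refine ⟨a, ha, ?_⟩
              rw [ho a (by rintro rfl; omega), hne _ e, e2]
            rw [if_pos c3, if_pos e1]; omega
          · rw [if_neg c3]; omega
  have k3 : ∀ u, x ≤ u → score r ρ P u ≤ score r ρ' P' u := by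
    intro u hu
    induction u, hu using Nat.le_induction with
    | base =>
      obtain ⟨y, rfl⟩ : ∃ y, x = y + 1 := ⟨x - 1, by omega⟩
      have h1 := k2 y (by omega) (by omega)
      have h2 := hc (u0 - 1) (by omega)
      rw [Nat.add_sub_cancel] at h2
      rw [score_succ, score_succ]
      have e1 : ∃ a, a < r ∧ P' (y + 1) a = ρ' (y + 1) :=
        ⟨p, hp, (if_pos ⟨le_rfl, rfl, hpx⟩).trans hx'.symm⟩
      rw [if_pos e1]
      split_ifs <;> omega
    | succ u hu ih =>
      rw [score_succ, score_succ]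
      simp only [same (u + 1) (fun h => by omega) (by omega)]
      omega
  exact k3 m hxm

end Pool.Agent.P.MP_e8bda8_co
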