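import Mathlib
import Pool.Agent.P.MP_e8bda8_co.Defs
import Pool.Agent.P.MP_e8bda8_co.Greene

/-!
Slides preserve the Greene invariants of the row word; rectifications exist.
-/

namespace Pool.Agent.P.MP_e8bda8_co

open Finset

/-- `T` is a standard filling with entries `1..N` at positions `pos`, ignoring the cell `h`. -/
structure Val (n B N : ℕ) (T : ℕ × ℕ → ℕ∞) (h : Option (ℕ × ℕ)) (pos : ℕ → ℕ × ℕ) : Prop where
  mono : Monotone T
  bnd : ∀ c, T c ≠ ⊤ → c.1 < n ∧ c.2 < B
  pos_ne : ∀ x, 1 ≤ x → x ≤ N → some (pos x) ≠ h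
  pos_eq : ∀ x, 1 ≤ x → x ≤ N → T (pos x) = (x : ℕ∞)
  surj : ∀ (c : ℕ × ℕ) (x : ℕ), some c ≠ h → T c = (x : ℕ∞) → 1 ≤ x → x ≤ N ∧ pos x = c

theorem mono_update {T : ℕ × ℕ → ℕ∞} (hT : Monotone T) {i j : ℕ} {v : ℕ∞} (h0 : T (i, j) ≤ v)
    (h1 : v ≤ T (i, j + 1)) (h2 : v ≤ T (i + 1, j)) : Monotone (Function.update T (i, j) v) := by
  intro a b hab
  by_cases ha : a = (i, j)
  · by_cases hb : b = (i, j)
    · rw [ha, hb]
    · rw [ha, Function.update_self, Function.update_of_ne hb]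
      obtain ⟨b1, b2⟩ := b
      rw [ha] at hab
      have h3 : i ≤ b1 := hab.1
      have h4 : j ≤ b2 := hab.2
      by_cases h5 : b2 = j
      · have h6 : b1 ≠ i := fun e => hb (by rw [e, h5])
        exact h2.trans (hT ⟨show i + 1 ≤ b1 by omega, h4⟩)
      · exact h1.trans (hT ⟨h3, show j + 1 ≤ b2 by omega⟩)
  · by_cases hb : b = (i, j)
    · rw [hb, Function.update_self, Function.update_of_ne ha]
      rw [hb] at hab
      exact (hT hab).trans h0
    · rw [Function.update_of_ne ha, Function.update_of_ne hb]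
      exact hT hab

theorem exists_nat_of_lt {a b : ℕ∞} (h : a < b) (h0 : a ≠ 0) : ∃ x : ℕ, a = (x : ℕ∞) ∧ 1 ≤ x := by
  have : a ≠ ⊤ := ne_top_of_lt h
  obtain ⟨x, rfl⟩ := ENat.ne_top_iff_exists.1 this
  refine ⟨x, rfl, ?_⟩
  by_contra h1
  have : x = 0 := by omega
  exact h0 (by simp [this])

theorem val_move {n B N : ℕ} {T : ℕ × ℕ → ℕ∞} {pos : ℕ → ℕ × ℕ} {i j : ℕ}
    (hV : Val n B N T (some (i, j)) pos) {c : ℕ × ℕ} {x : ℕ} (hc : (i, j) ≤ c) (hne : c ≠ (i, j))
    (hx : T c = (x : ℕ∞)) (hx1 : 1 ≤ x) (h1 : T c ≤ T (i, j + 1)) (h2 : T c ≤ T (i + 1, j)) :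
    Val n B N (Function.update T (i, j) (T c)) (some c) (Function.update pos x (i, j)) := by
  have hs := hV.surj c x (by simpa using hne) hx hx1
  refine ⟨mono_update hV.mono (hV.mono hc) h1 h2, fun d hd => ?_, fun y hy1 hy2 => ?_,
    fun y hy1 hy2 => ?_, fun d y hd hy hy1 => ?_⟩
  · by_cases e : d = (i, j)
    · have := hV.bnd c (by rw [hx]; simp)
      have h3 : i ≤ c.1 := hc.1
      have h4 : j ≤ c.2 := hc.2
      rw [e]; constructor <;> simp only <;> omega
    · rw [Function.update_of_ne e] at hd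
      exact hV.bnd d hd
  · by_cases e : y = x
    · rw [e, Function.update_self]; simpa using hne.symm
    · rw [Function.update_of_ne e]
      intro e2
      have e3 : pos y = c := by simpa using e2
      have := hV.pos_eq y hy1 hy2
      rw [e3, hx] at this
      exact e (by exact_mod_cast this.symm)
  · by_cases e : y = x
    · rw [e, Function.update_self, Function.update_self, hx]
    · rw [Function.update_of_ne e, Function.update_of_ne (by simpa using hV.pos_ne y hy1 hy2)]
      exact hV.pos_eq y hy1 hy2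
  · by_cases e : d = (i, j)
    · rw [e, Function.update_self, hx] at hy
      have : x = y := by exact_mod_cast hy
      subst this
      exact ⟨hs.1, by rw [Function.update_self, e]⟩
    · rw [Function.update_of_ne e] at hy
      have h3 := hV.surj d y (by simpa using e) hy hy1
      refine ⟨h3.1, ?_⟩
      have : y ≠ x := by
        rintro rfl
        exact hd (by rw [← h3.2, hs.2])
      rw [Function.update_of_ne this]; exact h3.2

theorem val_stop {n B N : ℕ} {T : ℕ × ℕ → ℕ∞} {pos : ℕ → ℕ × ℕ} {i j : ℕ}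
    (hV : Val n B N T (some (i, j)) pos) (h1 : T (i, j + 1) = ⊤) (h2 : T (i + 1, j) = ⊤) :
    Val n B N (Function.update T (i, j) ⊤) none pos := by
  refine ⟨mono_update hV.mono le_top h1.ge h2.ge, fun d hd => ?_, fun y _ _ => by simp,
    fun y hy1 hy2 => ?_, fun d y _ hy hy1 => ?_⟩
  · by_cases e : d = (i, j)
    · rw [e, Function.update_self] at hd; exact absurd rfl hd
    · rw [Function.update_of_ne e] at hd
      exact hV.bnd d hd
  · rw [Function.update_of_ne (by simpa using hV.pos_ne y hy1 hy2)]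
    exact hV.pos_eq y hy1 hy2
  · by_cases e : d = (i, j)
    · rw [e, Function.update_self] at hy; simp at hy
    · rw [Function.update_of_ne e] at hy
      exact hV.surj d y (by simpa using e) hy hy1

theorem val_start {n B N : ℕ} {T : ℕ × ℕ → ℕ∞} {pos : ℕ → ℕ × ℕ} {c : ℕ × ℕ}
    (hV : Val n B N T none pos) (h0 : T c = 0) : Val n B N T (some c) pos := by
  refine ⟨hV.mono, hV.bnd, fun y hy1 hy2 e => ?_, hV.pos_eq,
    fun d y _ hy hy1 => hV.surj d y (by simp) hy hy1⟩
  have e2 : pos y = c := by simpa using e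
  have := hV.pos_eq y hy1 hy2
  rw [e2, h0] at this
  have : y = 0 := by exact_mod_cast this.symm
  omega

/-- comparing two rows through a column-preserving map -/
theorem cnt_le_of_col {n B N : ℕ} {T : ℕ × ℕ → ℕ∞} {h : Option (ℕ × ℕ)} {pos : ℕ → ℕ × ℕ}
    (hV : Val n B N T h pos) {l l' a b : ℕ} (hb : b ≤ N)
    (hm : ∀ t, a < t → t ≤ b → (pos t).1 = l →
      some (l', (pos t).2) ≠ h ∧ (a : ℕ∞) < T (l', (pos t).2) ∧ T (l', (pos t).2) ≤ (b : ℕ∞)) :
    cnt (fun t => (pos t).1) l a b ≤ cnt (fun t => (pos t).1) l' a b := by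
  have key : ∀ t, a < t → t ≤ b → (pos t).1 = l →
      a < (T (l', (pos t).2)).toNat ∧ (T (l', (pos t).2)).toNat ≤ b ∧
        pos (T (l', (pos t).2)).toNat = (l', (pos t).2) := by
    intro t h1 h2 h3
    obtain ⟨m1, m2, m3⟩ := hm t h1 h2 h3
    have : T (l', (pos t).2) ≠ ⊤ := ne_top_of_le_ne_top (by simp) m3
    obtain ⟨y, hy⟩ := ENat.ne_top_iff_exists.1 this
    rw [← hy] at m2 m3
    have m4 : a < y := by exact_mod_cast m2
    have m5 : y ≤ b := by exact_mod_cast m3
    have := hV.surj _ y m1 hy.symm (by omega)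
    rw [← hy, ENat.toNat_natCast]
    exact ⟨m4, m5, this.2⟩
  unfold cnt
  refine card_le_card_of_injOn (fun t => (T (l', (pos t).2)).toNat) ?_ ?_
  · intro t ht
    simp only [coe_filter, mem_Ioc, Set.mem_ofPred_eq] at ht ⊢
    obtain ⟨k1, k2, k3⟩ := key t ht.1.1 ht.1.2 ht.2
    exact ⟨⟨k1, k2⟩, by rw [k3]⟩
  · intro t ht u hu e
    simp only [coe_filter, mem_Ioc, Set.mem_ofPred_eq] at ht hu e
    obtain ⟨_, _, k3⟩ := key t ht.1.1 ht.1.2 ht.2
    obtain ⟨_, _, k4⟩ := key u hu.1.1 hu.1.2 hu.2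
    rw [e, k4] at k3
    have e2 : pos t = pos u := by
      apply Prod.ext
      · rw [ht.2, hu.2]
      · exact (congrArg Prod.snd k3).symm
    have h1 := hV.pos_eq t (by omega) (by omega)
    have h2 := hV.pos_eq u (by omega) (by omega)
    rw [e2, h2] at h1
    exact_mod_cast h1.symm

theorem cnt_congr {ρ ρ' : ℕ → ℕ} {a b : ℕ} (l : ℕ) (h : ∀ t, a < t → t ≤ b → ρ t = ρ' t) :
    cnt ρ l a b = cnt ρ' l a b := by
  unfold cnt
  congr 1
  ext t
  simp only [mem_filter, mem_Ioc]
  constructor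
  · rintro ⟨h1, h2⟩; exact ⟨h1, by rw [← h t h1.1 h1.2]; exact h2⟩
  · rintro ⟨h1, h2⟩; exact ⟨h1, by rw [h t h1.1 h1.2]; exact h2⟩

theorem ach_move_up {n B N : ℕ} {T : ℕ × ℕ → ℕ∞} {pos : ℕ → ℕ × ℕ} {i j x : ℕ}
    (hV : Val n B N T (some (i, j)) pos) (hx : T (i + 1, j) = (x : ℕ∞)) (hx1 : 1 ≤ x)
    (hlt : T (i + 1, j) < T (i, j + 1)) (r m s : ℕ) (hm : m ≤ N) :
    Ach n r (fun t => (pos t).1) m s ↔
      Ach n r (fun t => (Function.update pos x (i, j) t).1) m s := by
  have hs := hV.surj (i + 1, j) x (by simp) hx hx1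
  have hne : ∀ t, t ≠ x → (Function.update pos x (i, j) t).1 = (pos t).1 := fun t ht => by
    rw [Function.update_of_ne ht]
  constructor
  · refine ach_up (x := x) (i := i) (congrArg Prod.fst hs.2) (by simp) hne fun τ h1 h2 => ?_
    refine cnt_le_of_col hV (by omega) fun t t1 t2 t3 => ?_
    have e := hV.pos_eq t (by omega) (by omega)
    have e2 : pos t = (i + 1, (pos t).2) := Prod.ext t3 rfl
    rw [e2] at e
    have hj : j < (pos t).2 := by
      by_contra h3
      have := hV.mono (show (i + 1, (pos t).2) ≤ (i + 1, j) from ⟨le_rfl, not_lt.1 h3⟩)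
      rw [e, hx] at this
      have : t ≤ x := by exact_mod_cast this
      omega
    refine ⟨by simp; omega, ?_, ?_⟩
    · rw [← hx]
      exact hlt.trans_le (hV.mono ⟨le_rfl, hj⟩)
    · have := hV.mono (show (i, (pos t).2) ≤ (i + 1, (pos t).2) from ⟨Nat.le_succ i, le_rfl⟩)
      rw [e] at this
      exact this.trans (by exact_mod_cast t2)
  · have hi : i + 1 < n := (hV.bnd (i + 1, j) (by rw [hx]; simp)).1
    refine ach_down (x := x) (i := i) hi (by omega) (by simp) (congrArg Prod.fst hs.2)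
      (fun t ht => (hne t ht).symm) fun τ h1 => ?_
    rw [cnt_congr (ρ' := fun t => (pos t).1) i (fun t _ _ => hne t (by omega)),
      cnt_congr (ρ' := fun t => (pos t).1) (i + 1) (fun t _ _ => hne t (by omega))]
    refine cnt_le_of_col hV (by omega) fun t t1 t2 t3 => ?_
    have e := hV.pos_eq t (by omega) (by omega)
    have e2 : pos t = (i, (pos t).2) := Prod.ext t3 rfl
    have e3 := hV.pos_ne t (by omega) (by omega)
    rw [e2] at e e3
    have hj : (pos t).2 < j := by
      have h3 : (pos t).2 ≠ j := fun h => e3 (by rw [h])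
      by_contra h4
      have := hV.mono (show (i, j + 1) ≤ (i, (pos t).2) from ⟨le_rfl, show j + 1 ≤ (pos t).2 by omega⟩)
      have h5 := hlt.trans_le this
      rw [e, hx] at h5
      have : x < t := by exact_mod_cast h5
      omega
    refine ⟨by simp, ?_, ?_⟩
    · have := hV.mono (show (i, (pos t).2) ≤ (i + 1, (pos t).2) from ⟨Nat.le_succ i, le_rfl⟩)
      rw [e] at this
      exact lt_of_lt_of_le (by exact_mod_cast t1) this
    · have h3 := hV.mono (show (i + 1, (pos t).2) ≤ (i + 1, j) from ⟨le_rfl, hj.le⟩)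
      rw [hx] at h3
      have h4 : T (i + 1, (pos t).2) ≠ (x : ℕ∞) := by
        intro h4
        have := (hV.surj _ x (by simp) h4 hx1).2
        rw [hs.2] at this
        have := congrArg Prod.snd this
        simp only at this
        omega
      have h5 := lt_of_le_of_ne h3 h4
      have : (x : ℕ∞) = ((x - 1 : ℕ) : ℕ∞) + 1 := by
        have : x = x - 1 + 1 := by omega
        exact_mod_cast this
      rw [this] at h5
      exact Order.le_of_lt_add_one h5

/-- relation between the row words before and after slides -/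
def Rel (n N : ℕ) (pos pos' : ℕ → ℕ × ℕ) : Prop :=
  (∀ t, (pos' t).1 ≤ (pos t).1) ∧
    ∀ r m s, m ≤ N → (Ach n r (fun t => (pos t).1) m s ↔ Ach n r (fun t => (pos' t).1) m s)

theorem Rel.refl (n N : ℕ) (pos : ℕ → ℕ × ℕ) : Rel n N pos pos :=
  ⟨fun _ => le_rfl, fun _ _ _ _ => Iff.rfl⟩

theorem Rel.trans {n N : ℕ} {p1 p2 p3 : ℕ → ℕ × ℕ} (h1 : Rel n N p1 p2) (h2 : Rel n N p2 p3) :
    Rel n N p1 p3 :=
  ⟨fun t => (h2.1 t).trans (h1.1 t), fun r m s hm => (h1.2 r m s hm).trans (h2.2 r m s hm)⟩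

theorem nz_next {T : ℕ × ℕ → ℕ∞} (hT : Monotone T) {c : ℕ × ℕ} (h : T c ≠ 0) :
    T (c.1, c.2 + 1) ≠ 0 ∧ T (c.1 + 1, c.2) ≠ 0 := by
  constructor
  · intro e
    have := hT (show c ≤ (c.1, c.2 + 1) from ⟨le_rfl, Nat.le_succ _⟩)
    rw [e] at this
    exact h (le_antisymm this zero_le)
  · intro e
    have := hT (show c ≤ (c.1 + 1, c.2) from ⟨Nat.le_succ _, le_rfl⟩)
    rw [e] at this
    exact h (le_antisymm this zero_le)

theorem slide_spec {n B N : ℕ} {T U : ℕ × ℕ → ℕ∞} {h : ℕ × ℕ} (hS : Slide T h U) :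
    ∀ pos : ℕ → ℕ × ℕ, Val n B N T (some h) pos → T (h.1, h.2 + 1) ≠ 0 → T (h.1 + 1, h.2) ≠ 0 →
      (∃ pos', Val n B N U none pos' ∧ Rel n N pos pos') ∧ ∀ c, U c = 0 ↔ (T c = 0 ∧ c ≠ h) := by
  induction hS with
  | stop T i j h1 h2 =>
    intro pos hV _ _
    refine ⟨⟨pos, val_stop hV h1 h2, Rel.refl _ _ _⟩, fun c => ?_⟩
    by_cases e : c = (i, j)
    · rw [e, Function.update_self]; simp
    · rw [Function.update_of_ne e]; simp [e]
  | left T U i j h1 _ ih =>
    intro pos hV z1 z2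
    obtain ⟨x, hx, hx1⟩ := exists_nat_of_lt h1 z1
    have hV' := val_move hV (c := (i, j + 1)) ⟨le_rfl, Nat.le_succ j⟩ (by simp) hx hx1 le_rfl h1.le
    have hz := nz_next hV'.mono (c := (i, j + 1)) (by rw [Function.update_of_ne (by simp)]; exact z1)
    obtain ⟨⟨pos', hU, hR⟩, hZ⟩ := ih _ hV' hz.1 hz.2
    have hs := hV.surj (i, j + 1) x (by simp) hx hx1
    have hrow : ∀ t, (Function.update pos x (i, j) t).1 = (pos t).1 := by
      intro t
      by_cases e : t = x
      · rw [e, Function.update_self, hs.2]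
      · rw [Function.update_of_ne e]
    refine ⟨⟨pos', hU, Rel.trans ⟨fun t => (hrow t).le, fun r m s _ => ?_⟩ hR⟩, fun c => ?_⟩
    · simp only [hrow]
    · rw [hZ c]
      by_cases e : c = (i, j)
      · rw [e, Function.update_self]; simpa using fun h => absurd h z1
      · rw [Function.update_of_ne e]
        constructor
        · rintro ⟨h2, _⟩; exact ⟨h2, e⟩
        · rintro ⟨h2, _⟩; exact ⟨h2, fun e2 => z1 (by rw [e2] at h2; exact h2)⟩
  | up T U i j h1 _ ih =>
    intro pos hV z1 z2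
    obtain ⟨x, hx, hx1⟩ := exists_nat_of_lt h1 z2
    have hV' := val_move hV (c := (i + 1, j)) ⟨Nat.le_succ i, le_rfl⟩ (by simp) hx hx1 h1.le le_rfl
    have hz := nz_next hV'.mono (c := (i + 1, j)) (by rw [Function.update_of_ne (by simp)]; exact z2)
    obtain ⟨⟨pos', hU, hR⟩, hZ⟩ := ih _ hV' hz.1 hz.2
    have hs := hV.surj (i + 1, j) x (by simp) hx hx1
    refine ⟨⟨pos', hU, Rel.trans ⟨fun t => ?_, fun r m s hm =>
      ach_move_up hV hx hx1 h1 r m s hm⟩ hR⟩, fun c => ?_⟩
    · by_cases e : t = x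
      · rw [e, Function.update_self, hs.2]; exact Nat.le_succ i
      · rw [Function.update_of_ne e]
    · rw [hZ c]
      by_cases e : c = (i, j)
      · rw [e, Function.update_self]; simpa using fun h => absurd h z2
      · rw [Function.update_of_ne e]
        constructor
        · rintro ⟨h2, _⟩; exact ⟨h2, e⟩
        · rintro ⟨h2, _⟩; exact ⟨h2, fun e2 => z2 (by rw [e2] at h2; exact h2)⟩

theorem slide_exists {n B N : ℕ} : ∀ (d : ℕ) (T : ℕ × ℕ → ℕ∞) (i j : ℕ) (pos : ℕ → ℕ × ℕ),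
    Val n B N T (some (i, j)) pos → T (i, j + 1) ≠ 0 → T (i + 1, j) ≠ 0 → n + B ≤ i + j + d →
      ∃ U, Slide T (i, j) U := by
  intro d
  induction d with
  | zero =>
    intro T i j pos hV _ _ hd
    refine ⟨_, Slide.stop T i j ?_ ?_⟩
    · by_contra h; have := hV.bnd _ h; simp only at this; omega
    · by_contra h; have := hV.bnd _ h; simp only at this; omega
  | succ d ih =>
    intro T i j pos hV z1 z2 hd
    rcases lt_trichotomy (T (i, j + 1)) (T (i + 1, j)) with h1 | h1 | h1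
    · obtain ⟨x, hx, hx1⟩ := exists_nat_of_lt h1 z1
      have hV' := val_move hV (c := (i, j + 1)) ⟨le_rfl, Nat.le_succ j⟩ (by simp) hx hx1 le_rfl h1.le
      have hz := nz_next hV'.mono (c := (i, j + 1))
        (by rw [Function.update_of_ne (by simp)]; exact z1)
      obtain ⟨U, hU⟩ := ih _ i (j + 1) _ hV' hz.1 hz.2 (by omega)
      exact ⟨U, Slide.left T U i j h1 hU⟩
    · by_cases ht : T (i, j + 1) = ⊤
      · exact ⟨_, Slide.stop T i j ht (h1 ▸ ht)⟩
      · obtain ⟨x, hx, hx1⟩ := exists_nat_of_lt (lt_top_iff_ne_top.2 ht) z1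
        have e1 := (hV.surj (i, j + 1) x (by simp) hx hx1).2
        have e2 := (hV.surj (i + 1, j) x (by simp) (h1 ▸ hx) hx1).2
        rw [e1] at e2
        simp at e2
    · obtain ⟨x, hx, hx1⟩ := exists_nat_of_lt h1 z2
      have hV' := val_move hV (c := (i + 1, j)) ⟨Nat.le_succ i, le_rfl⟩ (by simp) hx hx1 h1.le le_rfl
      have hz := nz_next hV'.mono (c := (i + 1, j))
        (by rw [Function.update_of_ne (by simp)]; exact z2)
      obtain ⟨U, hU⟩ := ih _ (i + 1) j _ hV' hz.1 hz.2 (by omega)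
      exact ⟨U, Slide.up T U i j h1 hU⟩

theorem rect_spec {n B N : ℕ} {T U : ℕ × ℕ → ℕ∞} (h : Relation.ReflTransGen InnerSlide T U)
    {pos : ℕ → ℕ × ℕ} (hV : Val n B N T none pos) :
    ∃ pos', Val n B N U none pos' ∧ Rel n N pos pos' := by
  induction h with
  | refl => exact ⟨pos, hV, Rel.refl _ _ _⟩
  | tail _ h2 ih =>
    obtain ⟨p1, hV1, hR1⟩ := ih
    obtain ⟨i, j, z0, z1, z2, hS⟩ := h2
    obtain ⟨⟨p2, hV2, hR2⟩, _⟩ := slide_spec hS p1 (val_start hV1 z0) z1 z2
    exact ⟨p2, hV2, hR1.trans hR2⟩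

theorem rect_exists {n B N : ℕ} : ∀ (d : ℕ) (T : ℕ × ℕ → ℕ∞) (pos : ℕ → ℕ × ℕ),
    Val n B N T none pos → ((range n ×ˢ range B).filter fun c => T c = 0).card = d →
      ∃ U, IsRect T U := by
  intro d
  induction d with
  | zero =>
    intro T pos hV hd
    refine ⟨T, Relation.ReflTransGen.refl, fun c hc => ?_⟩
    have h1 := hV.bnd c (by rw [hc]; simp)
    have h2 : c ∈ (range n ×ˢ range B).filter fun c => T c = 0 := by
      simp only [mem_filter, mem_product, mem_range]; exact ⟨h1, hc⟩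
    rw [card_eq_zero.1 hd] at h2
    simp at h2
  | succ d ih =>
    intro T pos hV hd
    have hne : ((range n ×ˢ range B).filter fun c => T c = 0).Nonempty :=
      card_pos.1 (by omega)
    obtain ⟨⟨i, j⟩, hc, hmax⟩ := exists_max_image _ (fun c : ℕ × ℕ => c.1 + c.2) hne
    have z0 : T (i, j) = 0 := (mem_filter.1 hc).2
    have hz : ∀ c : ℕ × ℕ, c.1 + c.2 = i + j + 1 → T c ≠ 0 := by
      intro c e hc0
      have h1 := hV.bnd c (by rw [hc0]; simp)
      have h2 : c ∈ (range n ×ˢ range B).filter fun c => T c = 0 := by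
        simp only [mem_filter, mem_product, mem_range]; exact ⟨h1, hc0⟩
      have := hmax c h2
      simp only at this
      omega
    have z1 := hz (i, j + 1) (by simp only; omega)
    have z2 := hz (i + 1, j) (by simp only; omega)
    obtain ⟨U1, hS⟩ := slide_exists (n + B) T i j pos (val_start hV z0) z1 z2 (by omega)
    obtain ⟨⟨p1, hV1, _⟩, hZ⟩ := slide_spec hS pos (val_start hV z0) z1 z2
    have hcard : ((range n ×ˢ range B).filter fun c => U1 c = 0).card = d := by
      have : ((range n ×ˢ range B).filter fun c => U1 c = 0)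
          = ((range n ×ˢ range B).filter fun c => T c = 0).erase (i, j) := by
        ext c
        simp only [mem_filter, mem_erase, hZ c]
        tauto
      rw [this, card_erase_of_mem hc]; omega
    obtain ⟨U, hU1, hU2⟩ := ih U1 p1 hV1 hcard
    exact ⟨U, Relation.ReflTransGen.head ⟨i, j, z0, z1, z2, hS⟩ hU1, hU2⟩

/-- Greene's theorem: the invariants of the row word of `T` count the entries in the first rows
of any rectification. -/
theorem greene {n B N : ℕ} {T U : ℕ × ℕ → ℕ∞} (h : IsRect T U) {pos : ℕ → ℕ × ℕ}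
    (hV : Val n B N T none pos) :
    ∃ pos', Val n B N U none pos' ∧ (∀ t, (pos' t).1 ≤ (pos t).1) ∧
      ∀ r m s, r ≤ n → m ≤ N → (Ach n r (fun t => (pos t).1) m s ↔
        s ≤ ((Ioc 0 m).filter fun t => (pos' t).1 < r).card) := by
  obtain ⟨pos', hU, hR⟩ := rect_spec h.1 hV
  refine ⟨pos', hU, hR.1, fun r m s hr hm => (hR.2 r m s hm).trans ?_⟩
  refine ach_lattice hr (fun τ hτ l l' hl => ?_) s
  refine cnt_le_of_col hU (by omega) fun t t1 t2 t3 => ⟨by simp, ?_, ?_⟩
  · exact pos_iff_ne_zero.2 (h.2 _)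
  · have e := hU.pos_eq t (by omega) (by omega)
    have := hU.mono (show (l, (pos' t).2) ≤ pos' t from ⟨by rw [t3]; exact hl, le_rfl⟩)
    rw [e] at this
    exact this.trans (by exact_mod_cast t2)

end Pool.Agent.P.MP_e8bda8_co
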