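import Mathlib
import Pool.Agent.P.MP_e8bda8_co.Greene

/-!
Greene invariants of a periodic row word: upper bound by a potential, lower bound by an explicit
schedule of `n - 1` stages.
-/

namespace Pool.Agent.P.MP_e8bda8_co

open Finset

/-- `ρ` is periodic with period `n` and row `l` occurs at time `p l` of each period -/
def Per (n : ℕ) (ρ p : ℕ → ℕ) : Prop :=
  (∀ l, l < n → 1 ≤ p l ∧ p l ≤ n) ∧
    ∀ q s l, 1 ≤ s → s ≤ n → l < n → (ρ (q * n + s) = l ↔ s = p l)

/-- the potential -/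
def pot (p : ℕ → ℕ) (l : ℕ) : ℕ := ∑ j ∈ range l, if p (j + 1) < p j then 1 else 0

theorem pot_succ (p : ℕ → ℕ) (l : ℕ) :
    pot p (l + 1) = pot p l + if p (l + 1) < p l then 1 else 0 := sum_range_succ _ _

theorem pot_mono (p : ℕ → ℕ) {l l' : ℕ} (h : l ≤ l') : pot p l ≤ pot p l' := by
  induction l', h using Nat.le_induction with
  | base => exact le_rfl
  | succ l' _ ih => rw [pot_succ]; omega

variable {n : ℕ} {ρ p : ℕ → ℕ}

theorem Per.inj (h : Per n ρ p) {l l' : ℕ} (hl : l < n) (hl' : l' < n) (e : p l = p l') :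
    l = l' := by
  have h1 := (h.2 0 (p l) l (h.1 l hl).1 (h.1 l hl).2 hl).2 rfl
  have h2 := (h.2 0 (p l) l' (h.1 l hl).1 (h.1 l hl).2 hl').2 e
  omega

theorem Per.cnt_eq (h : Per n ρ p) {l : ℕ} (hl : l < n) (q s : ℕ) (hs : s ≤ n) :
    cnt ρ l 0 (q * n + s) = q + if p l ≤ s then 1 else 0 := by
  have hp := h.1 l hl
  have step : ∀ q, cnt ρ l 0 (q * n) = q → ∀ s, s ≤ n →
      cnt ρ l 0 (q * n + s) = q + if p l ≤ s then 1 else 0 := by
    intro q hq s
    induction s with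
    | zero => intro _; rw [if_neg (by omega)]; simpa using hq
    | succ s ih =>
      intro hs
      rw [← add_assoc, cnt_succ _ _ (Nat.zero_le _), ih (by omega), add_assoc (q * n)]
      have := h.2 q (s + 1) l (by omega) hs hl
      simp only [this]
      split_ifs <;> omega
  have base : ∀ q, cnt ρ l 0 (q * n) = q := by
    intro q
    induction q with
    | zero => simp [cnt_self]
    | succ q ih =>
      have := step q ih n le_rfl
      rw [if_pos hp.2] at this
      rw [Nat.succ_mul]; exact this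
  exact step q (base q) s hs

theorem Per.cnt_mul (h : Per n ρ p) {l : ℕ} (hl : l < n) (q : ℕ) : cnt ρ l 0 (q * n) = q := by
  have := h.cnt_eq hl q 0 (Nat.zero_le _)
  have hp := h.1 l hl
  rw [if_neg (by omega)] at this
  simpa using this

theorem Per.pot_ineq (h : Per n ρ p) (τ l l' : ℕ) (hl : l ≤ l') (hl' : l' < n) :
    cnt ρ l' 0 τ + pot p l ≤ cnt ρ l 0 τ + pot p l' := by
  have hn : 0 < n := by omega
  have e : τ = (τ / n) * n + τ % n := (Nat.div_add_mod' τ n).symm
  have hs : τ % n ≤ n := (Nat.mod_lt _ hn).le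
  induction l', hl using Nat.le_induction with
  | base => exact le_rfl
  | succ l' hl ih =>
    have h1 := ih (by omega)
    have h2 : cnt ρ (l' + 1) 0 τ ≤ cnt ρ l' 0 τ + if p (l' + 1) < p l' then 1 else 0 := by
      rw [e, h.cnt_eq hl' _ _ hs, h.cnt_eq (by omega : l' < n) _ _ hs]
      split_ifs <;> omega
    rw [pot_succ]; omega

theorem Per.upper (h : Per n ρ p) {r k s : ℕ} (hA : Ach n r ρ (k * n) s) :
    s + ∑ a ∈ range r, pot p a ≤ r * k + ∑ a ∈ range r, pot p (n - r + a) := by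
  obtain ⟨P, hP, hs⟩ := hA
  have h1 := score_le hP (pot p) (k * n) (fun τ _ l l' h1 h2 => h.pot_ineq τ l l' h1 h2)
  have h2 : ∑ a ∈ range r, cnt ρ (P (k * n) a) 0 (k * n) = r * k := by
    rw [sum_congr rfl fun a ha => h.cnt_mul ((hP.1 _).1 a (mem_range.1 ha)) k]
    simp
  have h3 : ∑ a ∈ range r, pot p a ≤ ∑ a ∈ range r, pot p (P (k * n) a) :=
    sum_le_sum fun a ha => pot_mono p ((hP.1 _).le (mem_range.1 ha))
  have h4 : ∑ a ∈ range r, pot p (P 0 a) ≤ ∑ a ∈ range r, pot p (n - r + a) :=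
    sum_le_sum fun a ha => pot_mono p (by have := (hP.1 0).le' (mem_range.1 ha); omega)
  omega

/-- configuration `Q` can be reached at time `τ` without loss -/
def Full (n r : ℕ) (ρ p : ℕ → ℕ) (τ : ℕ) (Q : ℕ → ℕ) : Prop :=
  Conf n r Q ∧ ∃ P, Fam n r P ∧ (∀ a, a < r → Q a ≤ P τ a) ∧
    ∑ a ∈ range r, cnt ρ (Q a) 0 τ + ∑ a ∈ range r, pot p (n - r + a)
      ≤ score r ρ P τ + ∑ a ∈ range r, pot p (Q a)

theorem full_init {r : ℕ} (hr : r ≤ n) : Full n r ρ p 0 fun a => n - r + a := by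
  have hc : Conf n r fun a => n - r + a :=
    ⟨fun a ha => by simp only; omega, fun a b h _ => by simp only; omega⟩
  exact ⟨hc, fun _ a => n - r + a, ⟨fun _ => hc, fun _ _ _ => le_rfl⟩, fun _ _ => le_rfl,
    by simp [cnt_self]⟩

theorem Full.wait {r τ : ℕ} {Q : ℕ → ℕ} (h : Full n r ρ p τ Q) : Full n r ρ p (τ + 1) Q := by
  obtain ⟨hQ, P, hP, hle, hs⟩ := h
  let P' : ℕ → ℕ → ℕ := fun t => if t ≤ τ then P t else Q
  have hP' : Fam n r P' := by
    refine ⟨fun t => ?_, fun t a ha => ?_⟩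
    · simp only [P']; split_ifs
      · exact hP.1 t
      · exact hQ
    · simp only [P']; split_ifs with h1 h2 h2
      · exact hP.2 t a ha
      · omega
      · have : t = τ := by omega
        rw [this]; exact hle a ha
      · exact le_rfl
  have e1 : P' (τ + 1) = Q := if_neg (by omega)
  have e2 : score r ρ P' τ = score r ρ P τ := by
    unfold score
    congr 1
    ext t
    simp only [mem_filter, mem_Ioc, and_congr_right_iff]
    intro ht
    have : P' t = P t := if_pos ht.2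
    rw [this]
  refine ⟨hQ, P', hP', fun a _ => by rw [e1], ?_⟩
  rw [sum_cnt_succ hQ, score_succ, e1, e2]
  omega

theorem Full.wait' {r τ τ' : ℕ} {Q : ℕ → ℕ} (h : Full n r ρ p τ Q) (hτ : τ ≤ τ') :
    Full n r ρ p τ' Q := by
  induction τ', hτ using Nat.le_induction with
  | base => exact h
  | succ _ _ ih => exact ih.wait

theorem Full.move {r τ : ℕ} {Q Q' : ℕ → ℕ} (h : Full n r ρ p τ Q) (hQ' : Conf n r Q')
    (hm : ∀ a, a < r → Q' a ≤ Q a ∧
      cnt ρ (Q' a) 0 τ + pot p (Q a) ≤ cnt ρ (Q a) 0 τ + pot p (Q' a)) :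
    Full n r ρ p τ Q' := by
  obtain ⟨_, P, hP, hle, hs⟩ := h
  refine ⟨hQ', P, hP, fun a ha => (hm a ha).1.trans (hle a ha), ?_⟩
  have : ∑ a ∈ range r, cnt ρ (Q' a) 0 τ + ∑ a ∈ range r, pot p (Q a)
      ≤ ∑ a ∈ range r, cnt ρ (Q a) 0 τ + ∑ a ∈ range r, pot p (Q' a) := by
    rw [← sum_add_distrib, ← sum_add_distrib]
    exact sum_le_sum fun a ha => (hm a (mem_range.1 ha)).2
  omega

/-- time `θ` is good for a move from row `l+1` to row `l` -/
def Good (ρ p : ℕ → ℕ) (l θ : ℕ) : Prop :=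
  cnt ρ l 0 θ + pot p (l + 1) ≤ cnt ρ (l + 1) 0 θ + pot p l

theorem Full.stage {r T T' : ℕ} {Q Q' : ℕ → ℕ} (h : Full n r ρ p T Q) (hT : T ≤ T')
    (h1 : ∀ a, a < r → Q' a = Q a ∨ Q' a + 1 = Q a)
    (h2 : ∀ a b, a < b → b < r → Q a < Q' b)
    (hg : ∀ l, l + 1 < n → ∃ θ, T ≤ θ ∧ θ ≤ T' ∧ Good ρ p l θ) : Full n r ρ p T' Q' := by
  have hQ := h.1
  have hθ : ∀ a, ∃ θ, T ≤ θ ∧ θ ≤ T' ∧ (a < r → Q' a + 1 = Q a → Good ρ p (Q' a) θ) := by
    intro a
    by_cases c : a < r ∧ Q' a + 1 = Q a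
    · obtain ⟨θ, t1, t2, t3⟩ := hg (Q' a) (by have := hQ.1 a c.1; omega)
      exact ⟨θ, t1, t2, fun _ _ => t3⟩
    · exact ⟨T, le_rfl, hT, fun c1 c2 => absurd ⟨c1, c2⟩ c⟩
  choose θ t1 t2 t3 using hθ
  let R : ℕ → ℕ → ℕ := fun τ a => if θ a ≤ τ then Q' a else Q a
  have hR : ∀ τ, Conf n r (R τ) := by
    intro τ
    refine ⟨fun a ha => ?_, fun a b hab hb => ?_⟩
    · have := hQ.1 a ha
      have := h1 a ha
      simp only [R]; split_ifs <;> omega
    · have := h2 a b hab hb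
      have := h1 a (by omega)
      have := h1 b hb
      simp only [R]; split_ifs <;> omega
  have hmove : ∀ a τ, a < r → θ a = τ → Q' a ≤ Q a ∧
      cnt ρ (Q' a) 0 τ + pot p (Q a) ≤ cnt ρ (Q a) 0 τ + pot p (Q' a) := by
    intro a τ ha e
    rcases h1 a ha with c | c
    · rw [c]; exact ⟨le_rfl, le_rfl⟩
    · have := t3 a ha c
      rw [e] at this
      rw [← c]; exact ⟨Nat.le_succ _, this⟩
  have key : ∀ τ, T ≤ τ → Full n r ρ p τ (R τ) := by
    intro τ hτ
    induction τ, hτ using Nat.le_induction with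
    | base =>
      refine h.move (hR T) fun a ha => ?_
      simp only [R]; split_ifs with c
      · exact hmove a T ha (le_antisymm c (t1 a))
      · exact ⟨le_rfl, le_rfl⟩
    | succ τ hτ ih =>
      refine ih.wait.move (hR _) fun a ha => ?_
      simp only [R]; split_ifs with c1 c2 c2
      · exact ⟨le_rfl, le_rfl⟩
      · exact hmove a _ ha (by omega)
      · omega
      · exact ⟨le_rfl, le_rfl⟩
  have e : R T' = Q' := funext fun a => if_pos (t2 a)
  rw [← e]; exact key T' hT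

theorem Per.good_iff (h : Per n ρ p) {l : ℕ} (hl : l + 1 < n) (q s : ℕ) (hs : s ≤ n)
    (hg : s = p (l + 1) ∨ s + 1 = p l) : Good ρ p l (q * n + s) := by
  unfold Good
  rw [h.cnt_eq hl q s hs, h.cnt_eq (by omega : l < n) q s hs, pot_succ]
  have : p l ≠ p (l + 1) := fun e => by have := h.inj (by omega) hl e; omega
  split_ifs <;> omega

/-- every window of `n` consecutive times has a good time -/
theorem Per.window (h : Per n ρ p) {l : ℕ} (hl : l + 1 < n) (T : ℕ) :
    ∃ θ, T ≤ θ ∧ θ ≤ T + (n - 1) ∧ Good ρ p l θ := by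
  have hn : 0 < n := by omega
  have e : T = (T / n) * n + T % n := (Nat.div_add_mod' T n).symm
  have hs : T % n < n := Nat.mod_lt _ hn
  have hp := h.1 l (by omega)
  generalize T / n = q at e
  generalize T % n = s at e hs
  by_cases c : s ≤ p l - 1
  · exact ⟨q * n + (p l - 1), by omega, by omega, h.good_iff hl q _ (by omega) (by omega)⟩
  · refine ⟨(q + 1) * n + (p l - 1), ?_, ?_, h.good_iff hl _ _ (by omega) (by omega)⟩
    · rw [Nat.succ_mul]; omega
    · rw [Nat.succ_mul]; omega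

/-- a shorter window suffices at a special stage -/
theorem Per.window' (h : Per n ρ p) {l : ℕ} (hl : l + 1 < n) {q s : ℕ} (hs1 : 2 ≤ s) (hs : s ≤ n)
    (hbad : ¬ (p l = s ∧ p (l + 1) + 1 = s)) :
    ∃ θ, q * n + s ≤ θ ∧ θ ≤ q * n + s + (n - 2) ∧ Good ρ p l θ := by
  have hp := h.1 l (by omega)
  have hp' := h.1 (l + 1) hl
  by_cases c0 : p l = s
  · by_cases c : s ≤ p (l + 1)
    · exact ⟨q * n + p (l + 1), by omega, by omega, h.good_iff hl q _ (by omega) (by omega)⟩
    · refine ⟨(q + 1) * n + p (l + 1), ?_, ?_, h.good_iff hl _ _ (by omega) (by omega)⟩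
      · rw [Nat.succ_mul]; omega
      · rw [Nat.succ_mul]; omega
  · by_cases c : s ≤ p l - 1
    · exact ⟨q * n + (p l - 1), by omega, by omega, h.good_iff hl q _ (by omega) (by omega)⟩
    · refine ⟨(q + 1) * n + (p l - 1), ?_, ?_, h.good_iff hl _ _ (by omega) (by omega)⟩
      · rw [Nat.succ_mul]; omega
      · rw [Nat.succ_mul]; omega

/-- configuration after `m` stages -/
def stg (n r m a : ℕ) : ℕ := n - r + a - min (m - a) (n - r)

theorem Full.next {r T T' m : ℕ} (h : Full n r ρ p T (stg n r m)) (hT : T ≤ T')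
    (hg : ∀ l, l + 1 < n → ∃ θ, T ≤ θ ∧ θ ≤ T' ∧ Good ρ p l θ) :
    Full n r ρ p T' (stg n r (m + 1)) :=
  h.stage hT (fun a _ => by unfold stg; omega) (fun a b _ _ => by unfold stg; omega) hg

theorem Per.stages (h : Per n ρ p) {r T m : ℕ} (hF : Full n r ρ p T (stg n r m)) (d : ℕ) :
    Full n r ρ p (T + d * (n - 1)) (stg n r (m + d)) := by
  induction d with
  | zero => simpa using hF
  | succ d ih =>
    rw [Nat.succ_mul, ← add_assoc, ← add_assoc]
    exact ih.next (Nat.le_add_right _ _) fun l hl => h.window hl _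

theorem full_stg_zero {r : ℕ} (hr : r ≤ n) : Full n r ρ p 0 (stg n r 0) := by
  have : stg n r 0 = fun a => n - r + a := by
    funext a; simp [stg]
  rw [this]; exact full_init hr

theorem Per.lower_of_full (h : Per n ρ p) {r k : ℕ} (hr : r ≤ n)
    (hF : Full n r ρ p (k * n) (stg n r (n - 1))) :
    ∃ s, Ach n r ρ (k * n) s ∧
      r * k + ∑ a ∈ range r, pot p (n - r + a) ≤ s + ∑ a ∈ range r, pot p a := by
  obtain ⟨_, P, hP, _, hs⟩ := hF
  have e : ∀ a ∈ range r, stg n r (n - 1) a = a := fun a ha => by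
    have := mem_range.1 ha
    unfold stg; omega
  refine ⟨_, ⟨P, hP, le_rfl⟩, ?_⟩
  rw [sum_congr rfl fun a ha => congrArg (fun l => cnt ρ l 0 (k * n)) (e a ha),
    sum_congr rfl fun a ha => congrArg (pot p) (e a ha),
    sum_congr rfl fun a ha => h.cnt_mul (lt_of_lt_of_le (mem_range.1 ha) hr) k] at hs
  simpa using hs

theorem Per.full_general (h : Per n ρ p) {r : ℕ} (hr : r ≤ n) :
    Full n r ρ p ((n - 1) * n) (stg n r (n - 1)) := by
  have := h.stages (full_stg_zero hr) (n - 1)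
  simp only [zero_add] at this
  exact this.wait' (Nat.mul_le_mul_left _ (Nat.sub_le _ _))

theorem Per.full_special (h : Per n ρ p) {r s : ℕ} (hr : r ≤ n) (hs1 : 2 ≤ s) (hs : s ≤ n)
    (hbad : ∀ l, l + 1 < n → ¬ (p l = s ∧ p (l + 1) + 1 = s)) :
    Full n r ρ p ((n - 2) * n) (stg n r (n - 1)) := by
  obtain ⟨m, rfl⟩ : ∃ m, n = s + m := ⟨n - s, by omega⟩
  obtain ⟨u, rfl⟩ : ∃ u, s = u + 2 := ⟨s - 2, by omega⟩
  have h1 := h.stages (full_stg_zero hr) m
  simp only [zero_add] at h1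
  have h2 : Full (u + 2 + m) r ρ p (m * (u + 2 + m - 1) + (u + m)) (stg (u + 2 + m) r (m + 1)) := by
    refine h1.next (Nat.le_add_right _ _) fun l hl => ?_
    cases m with
    | zero =>
      obtain ⟨θ, t1, t2, t3⟩ := h.window' hl (q := 0) hs1 hs (hbad l hl)
      obtain ⟨y, rfl⟩ : ∃ y, θ = (u + 2 + 0) + y := ⟨θ - (u + 2 + 0), by omega⟩
      refine ⟨y, by omega, by omega, ?_⟩
      have hy : y ≤ u + 2 + 0 := by omega
      unfold Good at t3 ⊢
      have a1 := h.cnt_eq hl 1 y hy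
      have a2 := h.cnt_eq (by omega : l < u + 2 + 0) 1 y hy
      have a3 := h.cnt_eq hl 0 y hy
      have a4 := h.cnt_eq (by omega : l < u + 2 + 0) 0 y hy
      rw [one_mul] at a1 a2
      rw [zero_mul, zero_add] at a3 a4
      omega
    | succ m =>
      have e : (m + 1) * (u + 2 + (m + 1) - 1) = m * (u + 2 + (m + 1)) + (u + 2) := by
        have : u + 2 + (m + 1) - 1 = u + 2 + m := by omega
        rw [this]; ring
      obtain ⟨θ, t1, t2, t3⟩ := h.window' hl (q := m) hs1 hs (hbad l hl)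
      exact ⟨θ, by omega, by omega, t3⟩
  have h3 := h.stages h2 u
  have e1 : m + 1 + u = u + 2 + m - 1 := by omega
  have e2 : m * (u + 2 + m - 1) + (u + m) + u * (u + 2 + m - 1) = (u + 2 + m - 2) * (u + 2 + m) := by
    have a1 : u + 2 + m - 1 = u + 1 + m := by omega
    have a2 : u + 2 + m - 2 = u + m := by omega
    rw [a1, a2]; ring
  rw [e1, e2] at h3
  exact h3

end Pool.Agent.P.MP_e8bda8_co
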