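import Mathlib
import Pool.Agent.P.MP_e8bda8_co.Defs
import Pool.Agent.P.MP_e8bda8_co.Jdt
import Pool.Agent.P.MP_e8bda8_co.Periodic

/-!
The tableaux `tab w k`, and the proof that only the identity has maximal stabilization.
-/

namespace Pool.Agent.P.MP_e8bda8_co

open Finset

variable {n : ℕ}

/-- index of the row of `tab w k` holding the entry `x` -/
def idx (hn : 0 < n) (w : Equiv.Perm (Fin n)) (x : ℕ) : ℕ :=
  (w.symm ⟨(x - 1) % n, Nat.mod_lt _ hn⟩ : ℕ)

/-- cell of `tab w k` holding the entry `x` -/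
def tpos (hn : 0 < n) (w : Equiv.Perm (Fin n)) (x : ℕ) : ℕ × ℕ :=
  (n - 1 - idx hn w x, idx hn w x + (x - 1) / n)

/-- first entry of row `l` -/
def first (w : Equiv.Perm (Fin n)) (l : ℕ) : ℕ :=
  if h : l < n then (w ⟨n - 1 - l, by omega⟩ : ℕ) + 1 else 0

theorem idx_lt (hn : 0 < n) (w : Equiv.Perm (Fin n)) (x : ℕ) : idx hn w x < n := Fin.isLt _

theorem idx_eq (hn : 0 < n) (w : Equiv.Perm (Fin n)) (a : Fin n) (q : ℕ) :
    idx hn w ((w a : ℕ) + 1 + q * n) = a ∧ ((w a : ℕ) + 1 + q * n - 1) / n = q := by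
  have e : (w a : ℕ) + 1 + q * n - 1 = (w a : ℕ) + q * n := by omega
  have h1 : ((w a : ℕ) + 1 + q * n - 1) % n = w a := by
    rw [e, Nat.add_mul_mod_self_right, Nat.mod_eq_of_lt (w a).isLt]
  have h2 : ((w a : ℕ) + 1 + q * n - 1) / n = q := by
    rw [e, Nat.add_mul_div_right _ _ hn, Nat.div_eq_of_lt (w a).isLt, zero_add]
  refine ⟨?_, h2⟩
  unfold idx
  have : (⟨((w a : ℕ) + 1 + q * n - 1) % n, Nat.mod_lt _ hn⟩ : Fin n) = w a := Fin.ext h1
  rw [this, Equiv.symm_apply_apply]

theorem w_idx (hn : 0 < n) (w : Equiv.Perm (Fin n)) (x : ℕ) (a : Fin n) (h : (a : ℕ) = idx hn w x) :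
    (w a : ℕ) = (x - 1) % n := by
  have : a = w.symm ⟨(x - 1) % n, Nat.mod_lt _ hn⟩ := Fin.ext h
  rw [this, Equiv.apply_symm_apply]

theorem per_tab (hn : 0 < n) (w : Equiv.Perm (Fin n)) :
    Per n (fun t => (tpos hn w t).1) (first w) := by
  refine ⟨fun l hl => ?_, fun q s l h1 h2 hl => ?_⟩
  · unfold first
    rw [dif_pos hl]
    have := (w ⟨n - 1 - l, by omega⟩).isLt
    omega
  · unfold first
    rw [dif_pos hl]
    simp only [tpos]
    have hi := idx_lt hn w (q * n + s)
    constructor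
    · intro e
      have h3 := w_idx hn w (q * n + s) ⟨n - 1 - l, by omega⟩ (by simp only; omega)
      have h4 : (q * n + s - 1) % n = s - 1 := by
        have : q * n + s - 1 = (s - 1) + q * n := by omega
        rw [this, Nat.add_mul_mod_self_right, Nat.mod_eq_of_lt (by omega)]
      omega
    · intro e
      have h3 := (idx_eq hn w ⟨n - 1 - l, by omega⟩ q).1
      rw [← e, add_comm] at h3
      simp only at h3
      omega

theorem tab_mid (w : Equiv.Perm (Fin n)) (k : ℕ) {i j : ℕ} (hi : i < n) (h1 : n - 1 - i ≤ j)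
    (h2 : j < n - 1 - i + k) :
    tab w k (i, j) = (((w ⟨n - 1 - i, by omega⟩ : ℕ) + 1 + (j - (n - 1 - i)) * n : ℕ) : ℕ∞) := by
  unfold tab
  rw [dif_pos hi, if_neg (by simp only; omega), if_pos h2]

theorem tab_zero (w : Equiv.Perm (Fin n)) (k : ℕ) {i j : ℕ} (h1 : j < n - 1 - i) :
    tab w k (i, j) = 0 := by
  unfold tab
  rw [dif_pos (by simp only; omega), if_pos h1]

theorem tab_top (w : Equiv.Perm (Fin n)) (k : ℕ) {i j : ℕ} (h1 : n ≤ i ∨ n - 1 - i + k ≤ j) :
    tab w k (i, j) = ⊤ := by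
  unfold tab
  split_ifs with h2 h3 h4
  · simp only at h2 h3; omega
  · simp only at h2 h3 h4; omega
  · rfl
  · rfl

theorem val_tab (hn : 0 < n) (w : Equiv.Perm (Fin n)) (k : ℕ) :
    Val n (n + k) (k * n) (tab w k) none (tpos hn w) := by
  refine ⟨?_, ?_, fun _ _ _ => by simp, ?_, ?_⟩
  · rintro ⟨i, j⟩ ⟨i', j'⟩ ⟨hi, hj⟩
    simp only at hi hj
    by_cases c1 : n ≤ i' ∨ n - 1 - i' + k ≤ j'
    · rw [tab_top w k c1]; exact le_top
    · by_cases c2 : j < n - 1 - i
      · rw [tab_zero w k c2]; exact zero_le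
      · rw [tab_mid w k (i := i) (j := j) (by omega) (by omega) (by omega),
          tab_mid w k (i := i') (j := j') (by omega) (by omega) (by omega)]
        norm_cast
        rcases Nat.eq_or_lt_of_le hi with e | e
        · subst e
          have := Nat.mul_le_mul_right n (show j - (n - 1 - i) ≤ j' - (n - 1 - i) by omega)
          omega
        · have h1 := Nat.mul_le_mul_right n
            (show j - (n - 1 - i) + 1 ≤ j' - (n - 1 - i') by omega)
          have h2 := (w ⟨n - 1 - i, by omega⟩).isLt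
          rw [Nat.succ_mul] at h1
          omega
  · rintro ⟨i, j⟩ h
    by_contra c
    simp only at c
    exact h (tab_top w k (by omega))
  · intro x h1 h2
    have hi := idx_lt hn w x
    have hq : (x - 1) / n < k := by
      rw [Nat.div_lt_iff_lt_mul hn]; omega
    unfold tpos
    have h5 := Nat.div_add_mod' (x - 1) n
    generalize (x - 1) / n = q at hq h5 ⊢
    rw [tab_mid w k (by omega) (by omega) (by omega)]
    have h3 := w_idx hn w x ⟨n - 1 - (n - 1 - idx hn w x), by omega⟩ (by simp only; omega)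
    have h4 : idx hn w x + q - (n - 1 - (n - 1 - idx hn w x)) = q := by omega
    rw [h3, h4]
    congr 1
    omega
  · rintro ⟨i, j⟩ x _ hx h1
    by_cases c1 : n ≤ i ∨ n - 1 - i + k ≤ j
    · rw [tab_top w k c1] at hx; simp at hx
    · by_cases c2 : j < n - 1 - i
      · rw [tab_zero w k c2] at hx
        have : x = 0 := by exact_mod_cast hx.symm
        omega
      · rw [tab_mid w k (i := i) (j := j) (by omega) (by omega) (by omega)] at hx
        have e : (w ⟨n - 1 - i, by omega⟩ : ℕ) + 1 + (j - (n - 1 - i)) * n = x := by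
          exact_mod_cast hx
        obtain ⟨h2, h3⟩ := idx_eq hn w ⟨n - 1 - i, by omega⟩ (j - (n - 1 - i))
        rw [e] at h2 h3
        simp only at h2
        constructor
        · have h4 := Nat.mul_le_mul_right n (show j - (n - 1 - i) + 1 ≤ k by omega)
          have h5 := (w ⟨n - 1 - i, by omega⟩).isLt
          rw [Nat.succ_mul] at h4
          omega
        · unfold tpos
          rw [h2, h3]
          apply Prod.ext <;> simp only <;> omega

theorem card_split (f : ℕ → Prop) [DecidablePred f] {a b : ℕ} (h : a ≤ b) :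
    ((Ioc 0 b).filter f).card = ((Ioc 0 a).filter f).card + ((Ioc a b).filter f).card := by
  rw [← card_union_of_disjoint, ← filter_union, Ioc_union_Ioc_eq_Ioc (Nat.zero_le a) h]
  refine disjoint_filter_filter ?_
  rw [disjoint_left]
  intro t h1 h2
  simp only [mem_Ioc] at h1 h2
  omega

theorem stabilizes_of_full (hn : 0 < n) (w : Equiv.Perm (Fin n)) (k : ℕ)
    (hF : ∀ r, r ≤ n → Full n r (fun t => (tpos hn w t).1) (first w) (k * n) (stg n r (n - 1))) :
    Stabilizes w (k + 1) := by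
  have hV := val_tab hn w (k + 1)
  have hP := per_tab hn w
  obtain ⟨U, hU⟩ := rect_exists _ _ _ hV rfl
  obtain ⟨pos', hV', hle, hG⟩ := greene hU hV
  refine ⟨U, hU, fun x h1 h2 => ?_⟩
  rw [Nat.add_sub_cancel] at h1
  have hkk : k * n ≤ (k + 1) * n := Nat.mul_le_mul_right n (Nat.le_succ k)
  have hrow : (pos' x).1 = (tpos hn w x).1 := by
    refine le_antisymm (hle x) ?_
    set r := (pos' x).1 + 1 with hr
    have hrn : r ≤ n := by
      have h3 := hle x
      simp only [tpos] at h3
      omega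
    have u1 := hP.upper ((hG r _ _ hrn le_rfl).2 le_rfl)
    obtain ⟨s, hs, u2⟩ := hP.lower_of_full hrn (hF r hrn)
    have u3 := (hG r _ _ hrn hkk).1 hs
    have u4 := card_split (fun t => (pos' t).1 < r) hkk
    have u5 := card_split (fun t => (tpos hn w t).1 < r) hkk
    have u6 : ∀ q, ((Ioc 0 (q * n)).filter fun t => (tpos hn w t).1 < r).card = r * q := by
      intro q
      rw [← sum_cnt_eq (fun t => (tpos hn w t).1),
        sum_congr rfl fun a ha => hP.cnt_mul (lt_of_lt_of_le (mem_range.1 ha) hrn) q]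
      simp
    rw [u6, u6] at u5
    have u7 : ((Ioc (k * n) ((k + 1) * n)).filter fun t => (tpos hn w t).1 < r)
        = (Ioc (k * n) ((k + 1) * n)).filter fun t => (pos' t).1 < r := by
      refine eq_of_subset_of_card_le (fun t ht => ?_) ?_
      · rw [mem_filter] at ht ⊢
        exact ⟨ht.1, lt_of_le_of_lt (hle t) ht.2⟩
      · rw [Nat.mul_succ] at u1 u5
        omega
    have u8 : x ∈ (Ioc (k * n) ((k + 1) * n)).filter fun t => (pos' t).1 < r := by
      rw [mem_filter, mem_Ioc]; omega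
    rw [← u7, mem_filter] at u8
    omega
  refine ⟨(tpos hn w x).1, (tpos hn w x).2, (pos' x).2, hV.pos_eq x (by omega) h2, ?_⟩
  rw [← hrow]
  exact hV'.pos_eq x (by omega) h2

theorem stabilizes_self (hn : 0 < n) (w : Equiv.Perm (Fin n)) : Stabilizes w n := by
  have := stabilizes_of_full hn w (n - 1) fun r hr => (per_tab hn w).full_general hr
  rwa [Nat.sub_add_cancel hn] at this

theorem eq_one_of_chain (hn : 0 < n) (w : Equiv.Perm (Fin n))
    (h : ∀ s, 2 ≤ s → s ≤ n → ∃ l, l + 1 < n ∧ first w l = s ∧ first w (l + 1) + 1 = s) :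
    w = 1 := by
  have hmono : StrictMono (w.symm : Fin n → Fin n) := by
    obtain ⟨m, rfl⟩ : ∃ m, n = m + 1 := ⟨n - 1, by omega⟩
    rw [Fin.strictMono_iff_lt_succ]
    intro v
    obtain ⟨l, hl, e1, e2⟩ := h (v + 2) (by omega) (by have := v.isLt; omega)
    unfold first at e1 e2
    rw [dif_pos (by omega)] at e1 e2
    have a1 : w.symm v.succ = ⟨m + 1 - 1 - l, by omega⟩ := by
      rw [Equiv.symm_apply_eq]; apply Fin.ext; simp only [Fin.val_succ]; omega
    have a2 : w.symm v.castSucc = ⟨m + 1 - 1 - (l + 1), by omega⟩ := by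
      rw [Equiv.symm_apply_eq]; apply Fin.ext; simp only [Fin.val_castSucc]; omega
    rw [a1, a2, Fin.lt_def]
    simp only
    omega
  have hid : ∀ v, w.symm v = v := by
    have h1 : (w.symm : Fin n → Fin n) = id := by
      have := Subsingleton.elim (hmono.orderIsoOfSurjective _ w.symm.surjective) (OrderIso.refl _)
      funext v
      exact congrArg (fun f : Fin n ≃o Fin n => f v) this
    intro v; exact congrFun h1 v
  ext v
  have := hid (w v)
  rw [Equiv.symm_apply_apply] at this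
  exact congrArg Fin.val this.symm

theorem stabilizes_pred (hn : 0 < n) (w : Equiv.Perm (Fin n)) (hw : w ≠ 1) :
    2 ≤ n ∧ Stabilizes w (n - 1) := by
  have : ∃ s, 2 ≤ s ∧ s ≤ n ∧ ∀ l, l + 1 < n → ¬ (first w l = s ∧ first w (l + 1) + 1 = s) := by
    by_contra c
    refine hw (eq_one_of_chain hn w fun s h1 h2 => ?_)
    by_contra c2
    exact c ⟨s, h1, h2, fun l hl h => c2 ⟨l, hl, h⟩⟩
  obtain ⟨s, h1, h2, h3⟩ := this
  refine ⟨by omega, ?_⟩
  have := stabilizes_of_full hn w (n - 2) fun r hr => (per_tab hn w).full_special hr h1 h2 h3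
  rwa [show n - 2 + 1 = n - 1 by omega] at this

theorem succ_div_mod (hn : 0 < n) (u : ℕ) :
    ((u + 1) / n = u / n ∧ (u + 1) % n = u % n + 1) ∨ (u + 1) / n = u / n + 1 := by
  have e := Nat.mod_add_div u n
  have h := Nat.mod_lt u hn
  by_cases c : u % n + 1 < n
  · left
    exact (Nat.div_mod_unique hn).2 ⟨by omega, c⟩
  · right
    exact ((Nat.div_mod_unique hn (c := 0)).2 ⟨by rw [Nat.mul_succ]; omega, hn⟩).1

theorem not_stabilizes_one (hn : 0 < n) {k : ℕ} (hk1 : 1 ≤ k) (hk : k < n) :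
    ¬ Stabilizes (1 : Equiv.Perm (Fin n)) k := by
  rintro ⟨U, hU, hS⟩
  have hV := val_tab hn 1 k
  obtain ⟨pos', hV', _, hG⟩ := greene hU hV
  have hρ : ∀ t, (tpos hn 1 t).1 = n - 1 - (t - 1) % n := fun t => rfl
  have hkn : k * n = (k - 1) * n + n := by
    conv_lhs => rw [← Nat.sub_add_cancel hk1, Nat.succ_mul]
  obtain ⟨i, j, j', e1, e2⟩ := hS ((k - 1) * n + 1) le_rfl (by omega)
  have a1 := (hV.surj _ _ (by simp) e1 (by omega)).2
  have a2 := (hV'.surj _ _ (by simp) e2 (by omega)).2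
  have a3 : i = n - 1 := by
    have := hρ ((k - 1) * n + 1)
    rw [a1, Nat.add_sub_cancel, Nat.mul_mod_left] at this
    exact this
  let H : ℕ → ℕ := fun u => if u / n < n - 1 - u % n then u / n else u / n + 1
  have hH : ∀ t, H (t - 1) ≤ H (t + 1 - 1) := by
    intro t
    cases t with
    | zero => exact le_rfl
    | succ u =>
      simp only [H, Nat.add_sub_cancel]
      rcases succ_div_mod hn u with ⟨c1, c2⟩ | c1
      · rw [c1, c2]; split_ifs <;> omega
      · rw [c1]; split_ifs <;> omega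
  have hA : Ach n (n - 1) (fun t => (tpos hn 1 t).1) (k * n) (k * n) := by
    refine ⟨fun t a => if a < H (t - 1) then a else a + 1,
      ⟨fun t => ⟨fun a ha => ?_, fun a b hab _ => ?_⟩, fun t a _ => ?_⟩, ?_⟩
    · simp only; split_ifs <;> omega
    · simp only; split_ifs <;> omega
    · have := hH t
      simp only; split_ifs <;> omega
    · unfold score
      rw [filter_true_of_mem, Nat.card_Ioc, Nat.sub_zero]
      intro t ht
      rw [mem_Ioc] at ht
      have hq : (t - 1) / n < k := by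
        rw [Nat.div_lt_iff_lt_mul hn]; omega
      simp only [hρ]
      have h1 : H (t - 1) ≠ n - 1 - (t - 1) % n ∧ H (t - 1) ≤ n - 1 := by
        simp only [H]; split_ifs <;> omega
      by_cases c : n - 1 - (t - 1) % n < H (t - 1)
      · exact ⟨_, by omega, if_pos c⟩
      · exact ⟨n - 1 - (t - 1) % n - 1, by omega, by rw [if_neg (by omega)]; omega⟩
  have h1 := (hG (n - 1) _ _ (Nat.sub_le _ _) le_rfl).1 hA
  have h2 : ((Ioc 0 (k * n)).filter fun t => (pos' t).1 < n - 1).card < (Ioc 0 (k * n)).card := by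
    refine card_lt_card (filter_ssubset.2 ⟨(k - 1) * n + 1, by rw [mem_Ioc]; omega, ?_⟩)
    rw [a2, a3]; exact lt_irrefl _
  rw [Nat.card_Ioc] at h2
  omega

theorem stab_eq_iff (hn : 1 ≤ n) (w : Equiv.Perm (Fin n)) : stab w = n ↔ w = 1 := by
  constructor
  · intro h
    by_contra hw
    obtain ⟨h2, h3⟩ := stabilizes_pred hn w hw
    have : stab w ≤ n - 1 := Nat.sInf_le ⟨by omega, h3⟩
    omega
  · rintro rfl
    have hmem : n ∈ {k : ℕ | 1 ≤ k ∧ Stabilizes (1 : Equiv.Perm (Fin n)) k} :=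
      ⟨hn, stabilizes_self hn 1⟩
    refine le_antisymm (Nat.sInf_le hmem) ?_
    by_contra c
    have := Nat.sInf_mem ⟨n, hmem⟩
    exact not_stabilizes_one hn this.1 (not_le.1 c) this.2

end Pool.Agent.P.MP_e8bda8_co
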